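import Pool.Agent.Helper68.Dom.Goals

/-!
# Project DOM, packet ORD6: the members of `M_n` with `n + 6` vertices
-/

namespace NApexGraphs.Dom.Helper14

open SimpleGraph NApexGraphs NApexGraphs.Dom

/-- extension of a partial bijection -/
theorem extend_inj {ι α β : Type} [Finite α] [Finite β] (hc : Nat.card α = Nat.card β)
    (p : ι → α) (q : ι → β) (hp : Function.Injective p) (hq : Function.Injective q) :
    ∃ g : α ≃ β, ∀ i, g (p i) = q i := by
  classical
  obtain ⟨e0⟩ : Nonempty (α ≃ β) := by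
    have := Fintype.ofFinite α
    have := Fintype.ofFinite β
    rw [Nat.card_eq_fintype_card, Nat.card_eq_fintype_card] at hc
    exact ⟨Fintype.equivOfCardEq hc⟩
  have := Fintype.ofFinite α
  let q' : ι → α := fun i => e0.symm (q i)
  have hq' : Function.Injective q' := e0.symm.injective.comp hq
  let e : {x // x ∈ Set.range p} ≃ {x // x ∈ Set.range q'} :=
    (Equiv.ofInjective p hp).symm.trans (Equiv.ofInjective q' hq')
  refine ⟨(e.extendSubtype).trans e0, fun i => ?_⟩
  have h1 : e.extendSubtype (p i) = e ⟨p i, ⟨i, rfl⟩⟩ :=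
    Equiv.extendSubtype_apply_of_mem e (p i) ⟨i, rfl⟩
  have h2 : e ⟨p i, ⟨i, rfl⟩⟩ = ⟨q' i, ⟨i, rfl⟩⟩ := by
    have h3 : (Equiv.ofInjective p hp).symm ⟨p i, ⟨i, rfl⟩⟩ = i :=
      Equiv.ofInjective_symm_apply hp i
    simp only [e, Equiv.trans_apply, h3]
    rfl
  rw [Equiv.trans_apply, h1, h2]
  exact e0.apply_symm_apply (q i)

/-- pairwise meeting pairs: none, a star, or a triangle -/
theorem star_or_tri {V : Type} (R : V → V → Prop) (hs : ∀ x y, R x y → R y x)
    (hm : ∀ x y z w, R x y → R z w → x = z ∨ x = w ∨ y = z ∨ y = w) :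
    (∀ x y, ¬ R x y) ∨ (∃ v w, R v w ∧ ∀ x y, R x y → x = v ∨ y = v) ∨
      (∃ x y z, R x y ∧ R y z ∧ R x z) := by
  by_cases h0 : ∀ x y, ¬ R x y
  · exact Or.inl h0
  right
  push Not at h0
  obtain ⟨x, y, hxy⟩ := h0
  by_cases h1 : ∀ z w, R z w → z = x ∨ w = x
  · exact Or.inl ⟨x, y, hxy, h1⟩
  push Not at h1
  have h2 : ∃ w, R y w ∧ w ≠ x := by
    obtain ⟨z, w, hzw, hz, hw⟩ := h1
    rcases hm x y z w hxy hzw with h | h | h | h
    · exact absurd h.symm hz
    · exact absurd h.symm hw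
    · exact ⟨w, h ▸ hzw, hw⟩
    · exact ⟨z, hs _ _ (h ▸ hzw), hz⟩
  obtain ⟨w, hyw, hwx⟩ := h2
  by_cases h3 : ∀ p q, R p q → p = y ∨ q = y
  · exact Or.inl ⟨y, x, hs _ _ hxy, h3⟩
  push Not at h3
  obtain ⟨p, q, hpq, hp, hq⟩ := h3
  right
  have a1 : x = p ∨ x = q := by
    rcases hm x y p q hxy hpq with h | h | h | h
    · exact Or.inl h
    · exact Or.inr h
    · exact absurd h.symm hp
    · exact absurd h.symm hq
  have a2 : w = p ∨ w = q := by
    rcases hm y w p q hyw hpq with h | h | h | h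
    · exact absurd h.symm hp
    · exact absurd h.symm hq
    · exact Or.inl h
    · exact Or.inr h
  refine ⟨x, y, w, hxy, hyw, ?_⟩
  rcases a1 with h | h <;> rcases a2 with h' | h'
  · exact absurd (h'.trans h.symm) hwx
  · rw [h, h']; exact hpq
  · rw [h, h']; exact hs _ _ hpq
  · exact absurd (h'.trans h.symm) hwx

variable {V : Type} {G : SimpleGraph V} {n : ℕ}

/-- contraction of an edge which meets all non-edges -/
theorem minor_contract [Finite V] (hcard : Nat.card V = n + 6) (a d : V) (had : G.Adj a d)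
    (h1 : ∀ x y, x ≠ y → x ≠ a → x ≠ d → y ≠ a → y ≠ d → G.Adj x y)
    (h2 : ∀ z, z ≠ a → z ≠ d → G.Adj z a ∨ G.Adj z d) :
    IsMinor (⊤ : SimpleGraph (Fin (n + 5))) G := by
  classical
  have := Fintype.ofFinite V
  have hc : Nat.card (Fin (n + 5)) = Nat.card {v : V // v ≠ a} := by
    rw [Nat.card_eq_fintype_card, Nat.card_eq_fintype_card, Fintype.card_fin,
      Fintype.card_subtype_compl (fun v => v = a), Fintype.card_subtype_eq,
      ← Nat.card_eq_fintype_card, hcard]
    rfl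
  obtain ⟨e, -⟩ := extend_inj (ι := Empty) hc (fun i => i.elim) (fun i => i.elim)
    (fun i => i.elim) (fun i => i.elim)
  refine ⟨fun k => if (e k : V) = d then {a, d} else {(e k : V)}, ?_⟩
  have hne : ∀ k l, k ≠ l → (e k : V) ≠ e l := fun k l hkl h =>
    hkl (e.injective (Subtype.ext h))
  rw [isModel_iff]
  refine ⟨?_, ?_, ?_⟩
  · intro k
    split_ifs with h
    · exact conn_pair had
    · exact Conn.singleton G _
  · intro k l hkl
    have h3 := hne k l hkl
    have hka := (e k).2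
    have hla := (e l).2
    split_ifs with h h' h'
    · exact absurd (h.trans h'.symm) h3
    · rw [Set.disjoint_singleton_right]
      rintro (h4 | h4)
      · exact hla h4
      · exact h' h4
    · rw [Set.disjoint_singleton_left]
      rintro (h4 | h4)
      · exact hka h4
      · exact h h4
    · rw [Set.disjoint_singleton]
      exact h3
  · intro k l hkl
    have h3 := hne k l (by simpa using hkl)
    have hka := (e k).2
    have hla := (e l).2
    split_ifs with h h' h'
    · exact absurd (h.trans h'.symm) h3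
    · rcases h2 (e l) hla h' with h4 | h4
      · exact ⟨a, Or.inl rfl, _, rfl, h4.symm⟩
      · exact ⟨d, Or.inr rfl, _, rfl, h4.symm⟩
    · rcases h2 (e k) hka h with h4 | h4
      · exact ⟨_, rfl, a, Or.inl rfl, h4⟩
      · exact ⟨_, rfl, d, Or.inr rfl, h4⟩
    · exact ⟨_, rfl, _, rfl, h1 _ _ h3 hka h hla h'⟩

/-- deletion of a vertex which meets all non-edges -/
theorem minor_delete [Finite V] (hcard : Nat.card V = n + 6) (a : V)
    (h1 : ∀ x y, x ≠ y → x ≠ a → y ≠ a → G.Adj x y) :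
    IsMinor (⊤ : SimpleGraph (Fin (n + 5))) G := by
  classical
  have := Fintype.ofFinite V
  have hc : Nat.card (Fin (n + 5)) = Nat.card {v : V // v ≠ a} := by
    rw [Nat.card_eq_fintype_card, Nat.card_eq_fintype_card, Fintype.card_fin,
      Fintype.card_subtype_compl (fun v => v = a), Fintype.card_subtype_eq,
      ← Nat.card_eq_fintype_card, hcard]
    rfl
  obtain ⟨e, -⟩ := extend_inj (ι := Empty) hc (fun i => i.elim) (fun i => i.elim)
    (fun i => i.elim) (fun i => i.elim)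
  apply isMinor_of_injective (fun k => (e k : V))
  · exact Subtype.val_injective.comp e.injective
  · intro k l hkl
    have hkl' : k ≠ l := by simpa using hkl
    exact h1 _ _ (fun h => hkl' (e.injective (Subtype.ext h))) (e k).2 (e l).2

/-- `KY n` as a spanning subgraph -/
theorem minor_KY [Finite V] (hcard : Nat.card V = n + 6) (a b c y : V) (hab : a ≠ b)
    (hac : a ≠ c) (hbc : b ≠ c) (hya : y ≠ a) (hyb : y ≠ b) (hyc : y ≠ c)
    (h1 : ∀ x z, x ≠ z → ¬ G.Adj x z → (x = y ∨ z = y) ∧ x ≠ a ∧ x ≠ b ∧ x ≠ c ∧ z ≠ a ∧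
      z ≠ b ∧ z ≠ c ∨ (x = a ∨ x = b ∨ x = c) ∧ (z = a ∨ z = b ∨ z = c)) :
    IsMinor (KY n) G := by
  classical
  have hc : Nat.card (Option (Fin (n + 5))) = Nat.card V := by
    rw [hcard]
    simp
  obtain ⟨g, hg⟩ := extend_inj (ι := Option (Fin 3)) hc
    (Option.map (Fin.castLE (by omega))) (fun o => o.elim y ![a, b, c])
    (Option.map_injective (Fin.castLE_injective (by omega))) (by
      rintro (_ | i) (_ | j) h
      · rfl
      · fin_cases j <;> simp_all
      · fin_cases i <;> simp_all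
      · fin_cases i <;> fin_cases j <;> simp_all)
  have g0 : g none = y := hg none
  have gi : ∀ i : Fin (n + 5), i.val < 3 → g (some i) = a ∨ g (some i) = b ∨ g (some i) = c := by
    intro i hi
    have h2 := hg (some ⟨i.val, hi⟩)
    have h3 : Option.map (Fin.castLE (by omega : 3 ≤ n + 5)) (some ⟨i.val, hi⟩) = some i := by
      simp [Fin.castLE]
    rw [h3] at h2
    rw [h2]
    have h4 : ∀ j : Fin 3, ![a, b, c] j = a ∨ ![a, b, c] j = b ∨ ![a, b, c] j = c := by
      intro j
      fin_cases j <;> simp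
    exact h4 _
  have gj : ∀ i : Fin (n + 5), (g (some i) = a ∨ g (some i) = b ∨ g (some i) = c) →
      i.val < 3 := by
    intro i hi
    have h2 : ∀ j : Fin 3, g (some i) = ![a, b, c] j → i.val < 3 := by
      intro j hj
      have h3 := hg (some j)
      have h4 : g (some i) = g (Option.map (Fin.castLE (by omega : 3 ≤ n + 5)) (some j)) := by
        rw [h3, hj]
        rfl
      have h5 := g.injective h4
      have h6 : i = Fin.castLE (by omega : 3 ≤ n + 5) j := by
        simpa using h5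
      rw [h6]
      exact j.isLt
    rcases hi with hi | hi | hi
    · exact h2 0 hi
    · exact h2 1 hi
    · exact h2 2 hi
  apply isMinor_of_injective g g.injective
  intro x z hxz
  by_contra hcon
  have hne : x ≠ z := hxz.ne
  rcases h1 _ _ (fun h => hne (g.injective h)) hcon with ⟨h2, h3⟩ | ⟨h2, h3⟩
  · rcases x with _ | i <;> rcases z with _ | j
    · exact hne rfl
    · have hj : j.val < 3 := hxz
      rcases gi j hj with h4 | h4 | h4
      · exact h3.2.2.2.1 h4
      · exact h3.2.2.2.2.1 h4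
      · exact h3.2.2.2.2.2 h4
    · have hi : i.val < 3 := hxz
      rcases gi i hi with h4 | h4 | h4
      · exact h3.1 h4
      · exact h3.2.1 h4
      · exact h3.2.2.1 h4
    · rcases h2 with h2 | h2
      · exact absurd (g.injective (h2.trans g0.symm)) (by simp)
      · exact absurd (g.injective (h2.trans g0.symm)) (by simp)
  · rcases x with _ | i
    · rw [g0] at h2
      rcases h2 with h2 | h2 | h2
      · exact hya h2
      · exact hyb h2
      · exact hyc h2
    · rcases z with _ | j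
      · rw [g0] at h3
        rcases h3 with h3 | h3 | h3
        · exact hya h3
        · exact hyb h3
        · exact hyc h3
      · exact hxz.2 ⟨gj i h2, gj j h3⟩

/-- `K331 n` as a spanning subgraph -/
theorem minor_K331 [Finite V] (hcard : Nat.card V = n + 6) (a b c d e f : V)
    (hnd : [a, b, c, d, e, f].Nodup)
    (h1 : ∀ x z, x ≠ z → ¬ G.Adj x z → (x = a ∨ x = b ∨ x = c) ∧ (z = a ∨ z = b ∨ z = c) ∨
      (x = d ∨ x = e ∨ x = f) ∧ (z = d ∨ z = e ∨ z = f)) :
    IsMinor (K331 n) G := by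
  classical
  have hc : Nat.card (Fin 3 ⊕ Fin 3 ⊕ Fin n) = Nat.card V := by
    rw [hcard]
    simp
    omega
  simp only [List.nodup_cons, List.mem_cons, List.not_mem_nil, or_false, not_or,
    not_false_eq_true, List.nodup_nil, and_true] at hnd
  obtain ⟨⟨n1, n2, n3, n4, n5⟩, ⟨n6, n7, n8, n9⟩, ⟨n10, n11, n12⟩, ⟨n13, n14⟩, n15⟩ := hnd
  obtain ⟨g, hg⟩ := extend_inj (ι := Fin 3 ⊕ Fin 3) hc
    (Sum.elim Sum.inl (fun i => Sum.inr (Sum.inl i)))
    (Sum.elim ![a, b, c] ![d, e, f]) (by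
      rintro (i | i) (j | j) h
      · simpa using h
      · simp at h
      · simp at h
      · simpa using h) (by
      rintro (i | i) (j | j) h
      · fin_cases i <;> fin_cases j <;> simp_all
      · fin_cases i <;> fin_cases j <;> simp_all
      · fin_cases i <;> fin_cases j <;> simp_all
      · fin_cases i <;> fin_cases j <;> simp_all)
  have gL : ∀ x, (g x = a ∨ g x = b ∨ g x = c) → x.isLeft := by
    intro x hx
    have h2 : ∀ j : Fin 3, g x = ![a, b, c] j → x.isLeft := by
      intro j hj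
      have h3 := hg (Sum.inl j)
      have h4 : x = Sum.inl j := g.injective (hj.trans h3.symm)
      rw [h4]
      rfl
    rcases hx with hx | hx | hx
    · exact h2 0 hx
    · exact h2 1 hx
    · exact h2 2 hx
  have gR : ∀ x, (g x = d ∨ g x = e ∨ g x = f) → ∃ i, x = Sum.inr (Sum.inl i) := by
    intro x hx
    have h2 : ∀ j : Fin 3, g x = ![d, e, f] j → ∃ i, x = Sum.inr (Sum.inl i) := by
      intro j hj
      have h3 := hg (Sum.inr j)
      exact ⟨j, g.injective (hj.trans h3.symm)⟩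
    rcases hx with hx | hx | hx
    · exact h2 0 hx
    · exact h2 1 hx
    · exact h2 2 hx
  apply isMinor_of_injective g g.injective
  intro x z hxz
  by_contra hcon
  rcases h1 _ _ (fun h => hxz.1 (g.injective h)) hcon with ⟨h2, h3⟩ | ⟨h2, h3⟩
  · exact hxz.2.1 ⟨gL x h2, gL z h3⟩
  · exact hxz.2.2 ⟨gR x h2, gR z h3⟩

/-- **ORD6.** -/
theorem gORD6 : Goals.OCTA → Goals.PATH4 → Goals.SPAN → Goals.TOPM → Goals.KM331 →
    Goals.KMY → Goals.ORD6 := by
  intro hOCTA hPATH hSPAN hTOP hK331 hKY V _ G n hn hmin hcard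
  classical
  have := Fintype.ofFinite V
  have hfc : Fintype.card V = n + 6 := by rw [← Nat.card_eq_fintype_card, hcard]
  -- six vertices are not planar
  have hsix : ∀ a b c d e f : V, [a, b, c, d, e, f].Nodup → ¬ Pl G {a, b, c, d, e, f} := by
    intro a b c d e f hnd hpl
    apply hmin.1
    refine ⟨(({a, b, c, d, e, f} : Finset V))ᶜ, ?_, ?_⟩
    · have h6 : ({a, b, c, d, e, f} : Finset V).card = 6 := by
        have := List.toFinset_card_of_nodup hnd
        simpa using this
      rw [Finset.card_compl, h6, hfc]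
      omega
    · rw [← pl_iff, Finset.coe_compl, compl_compl]
      simpa only [Finset.coe_insert, Finset.coe_singleton] using hpl
  -- no three disjoint non-edges
  have hthree : ∀ a a' b b' c c' : V, [a, a', b, b', c, c'].Nodup → ¬ G.Adj a a' →
      ¬ G.Adj b b' → ¬ G.Adj c c' → False := fun a a' b b' c c' hnd h1 h2 h3 =>
    hsix a a' b b' c c' hnd (hOCTA V G a a' b b' c c' hnd h1 h2 h3)
  -- a vertex outside of a small list
  have hout : ∀ L : List V, L.length < n + 6 → ∃ x, x ∉ L := by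
    intro L hL
    by_contra hcon
    push Not at hcon
    have h1 : (Finset.univ : Finset V) ⊆ L.toFinset := fun x _ => List.mem_toFinset.2 (hcon x)
    have h2 := Finset.card_le_card h1
    rw [Finset.card_univ, hfc] at h2
    have h3 := List.toFinset_card_le L
    omega
  -- no path on four vertices
  have hpath : ∀ a b c d : V, a ≠ b → a ≠ c → a ≠ d → b ≠ c → b ≠ d → c ≠ d →
      ¬ G.Adj a b → ¬ G.Adj b c → ¬ G.Adj c d → False := by
    intro a b c d n1 n2 n3 n4 n5 n6 h1 h2 h3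
    obtain ⟨e, he⟩ := hout [a, b, c, d] (by simp)
    obtain ⟨f, hf⟩ := hout [a, b, c, d, e] (by simp)
    have hnd : [a, b, c, d, e, f].Nodup := by
      simp only [List.mem_cons, List.not_mem_nil, or_false, not_or] at he hf
      simp only [List.nodup_cons, List.mem_cons, List.not_mem_nil, or_false, not_or,
        not_false_eq_true, List.nodup_nil, and_true]
      obtain ⟨e1, e2, e3, e4⟩ := he
      obtain ⟨f1, f2, f3, f4, f5⟩ := hf
      exact ⟨⟨n1, n2, n3, Ne.symm e1, Ne.symm f1⟩, ⟨n4, n5, Ne.symm e2, Ne.symm f2⟩,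
        ⟨n6, Ne.symm e3, Ne.symm f3⟩, ⟨Ne.symm e4, Ne.symm f4⟩, Ne.symm f5⟩
    exact hsix a b c d e f hnd (hPATH V G a b c d e f hnd h1 h2 h3)
  -- no minor with `n + 5` vertices
  have hno : ¬ IsMinor (⊤ : SimpleGraph (Fin (n + 5))) G := by
    intro h
    obtain ⟨e⟩ := hSPAN V (Fin (n + 5)) G ⊤ n hmin (hTOP n).1 h
    have h1 := Nat.card_congr e.toEquiv
    rw [hcard, Nat.card_eq_fintype_card, Fintype.card_fin] at h1
    omega
  -- two disjoint non-edges and a third
  have hmeet : ∀ a b x y z w : V, a ≠ b → ¬ G.Adj a b → x ≠ a → x ≠ b → y ≠ a → y ≠ b →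
      z ≠ a → z ≠ b → w ≠ a → w ≠ b → x ≠ y → ¬ G.Adj x y → z ≠ w → ¬ G.Adj z w →
      x = z ∨ x = w ∨ y = z ∨ y = w := by
    intro a b x y z w hab nab xa xb ya yb za zb wa wb xy nxy zw nzw
    by_contra hcon
    push Not at hcon
    obtain ⟨c1, c2, c3, c4⟩ := hcon
    refine hthree a b x y z w ?_ nab nxy nzw
    simp only [List.nodup_cons, List.mem_cons, List.not_mem_nil, or_false, not_or,
      not_false_eq_true, List.nodup_nil, and_true]
    exact ⟨⟨hab, Ne.symm xa, Ne.symm ya, Ne.symm za, Ne.symm wa⟩,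
      ⟨Ne.symm xb, Ne.symm yb, Ne.symm zb, Ne.symm wb⟩, ⟨xy, c1, c2⟩, ⟨c3, c4⟩, zw⟩
  have nadj : ∀ x y, ¬ G.Adj x y → ¬ G.Adj y x := fun x y h h' => h h'.symm
  by_cases htri : ∃ a b c : V, a ≠ b ∧ a ≠ c ∧ b ≠ c ∧ ¬ G.Adj a b ∧ ¬ G.Adj a c ∧ ¬ G.Adj b c
  · -- a triangle of non-edges
    obtain ⟨a, b, c, nab, nac, nbc, hab, hac, hbc⟩ := htri
    have hT : ∀ x y, x ≠ y → ¬ G.Adj x y → (x = a ∨ x = b ∨ x = c) →
        (y = a ∨ y = b ∨ y = c) := by
      intro x y hxy nxy hx
      by_contra hcon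
      push Not at hcon
      obtain ⟨ya, yb, yc⟩ := hcon
      rcases hx with rfl | rfl | rfl
      · exact hpath y x b c ya yb yc nab nac nbc (nadj _ _ nxy) hab hbc
      · exact hpath y x a c yb ya yc (Ne.symm nab) nbc nac (nadj _ _ nxy) (nadj _ _ hab) hac
      · exact hpath y x a b yc ya yb (Ne.symm nac) (Ne.symm nbc) nab (nadj _ _ nxy)
          (nadj _ _ hac) hab
    let R : V → V → Prop := fun x y => x ≠ y ∧ ¬ G.Adj x y ∧ (x ≠ a ∧ x ≠ b ∧ x ≠ c) ∧
      (y ≠ a ∧ y ≠ b ∧ y ≠ c)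
    have hRs : ∀ x y, R x y → R y x := fun x y h =>
      ⟨Ne.symm h.1, nadj _ _ h.2.1, h.2.2.2, h.2.2.1⟩
    have hRm : ∀ x y z w, R x y → R z w → x = z ∨ x = w ∨ y = z ∨ y = w := by
      intro x y z w h1 h2
      exact hmeet a b x y z w nab hab h1.2.2.1.1 h1.2.2.1.2.1 h1.2.2.2.1 h1.2.2.2.2.1
        h2.2.2.1.1 h2.2.2.1.2.1 h2.2.2.2.1 h2.2.2.2.2.1 h1.1 h1.2.1 h2.1 h2.2.1
    have hcl : ∀ x y, x ≠ y → ¬ G.Adj x y →
        (x = a ∨ x = b ∨ x = c) ∧ (y = a ∨ y = b ∨ y = c) ∨ R x y := by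
      intro x y hxy nxy
      by_cases hx : x = a ∨ x = b ∨ x = c
      · exact Or.inl ⟨hx, hT x y hxy nxy hx⟩
      · by_cases hy : y = a ∨ y = b ∨ y = c
        · exact absurd (hT y x (Ne.symm hxy) (nadj _ _ nxy) hy) hx
        · push Not at hx hy
          exact Or.inr ⟨hxy, nxy, hx, hy⟩
    have hstar : ∀ y : V, y ≠ a → y ≠ b → y ≠ c → (∀ x z, R x z → x = y ∨ z = y) →
        Nonempty (G ≃g KY n) := by
      intro y ya yb yc hy
      have hm : IsMinor (KY n) G := by
        refine minor_KY hcard a b c y nab nac nbc ya yb yc ?_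
        intro x z hxz nxz
        rcases hcl x z hxz nxz with h | h
        · exact Or.inr h
        · exact Or.inl ⟨hy x z h, h.2.2.1.1, h.2.2.1.2.1, h.2.2.1.2.2, h.2.2.2.1,
            h.2.2.2.2.1, h.2.2.2.2.2⟩
      obtain ⟨e⟩ := hSPAN V (Option (Fin (n + 5))) G (KY n) n hmin (hKY n hn).1 hm
      exact ⟨e.symm⟩
    rcases star_or_tri R hRs hRm with h0 | ⟨v, w, hvw, h1⟩ | ⟨d, e, f, hde, hef, hdf⟩
    · right
      obtain ⟨y, hy⟩ := hout [a, b, c] (by simp)
      simp only [List.mem_cons, List.not_mem_nil, or_false, not_or] at hy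
      exact hstar y hy.1 hy.2.1 hy.2.2 fun x z h => absurd h (h0 x z)
    · right
      exact hstar v hvw.2.2.1.1 hvw.2.2.1.2.1 hvw.2.2.1.2.2 h1
    · left
      have hm : IsMinor (K331 n) G := by
        refine minor_K331 hcard a b c d e f ?_ ?_
        · simp only [List.nodup_cons, List.mem_cons, List.not_mem_nil, or_false, not_or,
            not_false_eq_true, List.nodup_nil, and_true]
          exact ⟨⟨nab, nac, Ne.symm hde.2.2.1.1, Ne.symm hef.2.2.1.1, Ne.symm hef.2.2.2.1⟩,
            ⟨nbc, Ne.symm hde.2.2.1.2.1, Ne.symm hef.2.2.1.2.1, Ne.symm hef.2.2.2.2.1⟩,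
            ⟨Ne.symm hde.2.2.1.2.2, Ne.symm hef.2.2.1.2.2, Ne.symm hef.2.2.2.2.2⟩,
            ⟨hde.1, hdf.1⟩, hef.1⟩
        · intro x z hxz nxz
          rcases hcl x z hxz nxz with h | h
          · exact Or.inl h
          · right
            have m1 := hRm x z d e h hde
            have m2 := hRm x z e f h hef
            have m3 := hRm x z d f h hdf
            have n1 := hde.1
            have n2 := hef.1
            have n3 := hdf.1
            have n4 := h.1
            clear_value R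
            refine ⟨?_, ?_⟩ <;> grind
      obtain ⟨e'⟩ := hSPAN V (Fin 3 ⊕ Fin 3 ⊕ Fin n) G (K331 n) n hmin (hK331 n).1 hm
      exact ⟨e'.symm⟩
  · -- no triangle of non-edges
    exfalso
    push Not at htri
    by_cases hcomp : ∀ x y, x ≠ y → G.Adj x y
    · obtain ⟨a, -⟩ := hout [] (by simp)
      exact hno (minor_delete hcard a fun x y hxy _ _ => hcomp x y hxy)
    push Not at hcomp
    -- a centre
    obtain ⟨a, b, nab, hab, hdeg⟩ : ∃ a b, a ≠ b ∧ ¬ G.Adj a b ∧
        ((∃ b', b' ≠ b ∧ b' ≠ a ∧ ¬ G.Adj a b') ∨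
          ∀ x y z, x ≠ y → ¬ G.Adj x y → x ≠ z → ¬ G.Adj x z → y = z) := by
      by_cases h2 : ∃ x y z, x ≠ y ∧ ¬ G.Adj x y ∧ x ≠ z ∧ ¬ G.Adj x z ∧ y ≠ z
      · obtain ⟨x, y, z, h3, h4, h5, h6, h7⟩ := h2
        exact ⟨x, y, h3, h4, Or.inl ⟨z, Ne.symm h7, Ne.symm h5, h6⟩⟩
      · push Not at h2
        obtain ⟨a, b, nab, hab⟩ := hcomp
        refine ⟨a, b, nab, hab, Or.inr ?_⟩
        intro x y z h3 h4 h5 h6
        exact h2 x y z h3 h4 h5 h6
    have hclaim : ∀ x y, x ≠ y → ¬ G.Adj x y → x ≠ a → y ≠ a → G.Adj a x := by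
      intro x y hxy nxy xa ya
      by_contra hax
      have hay : G.Adj a y := by
        by_contra hay
        exact nxy (htri a x y (Ne.symm xa) (Ne.symm ya) hxy hax hay)
      rcases hdeg with ⟨b', hb, hba, hab'⟩ | hdeg
      · have hz : ∃ z, z ≠ x ∧ z ≠ a ∧ ¬ G.Adj a z := by
          by_cases h : b = x
          · exact ⟨b', fun h' => hb (h'.trans h.symm), hba, hab'⟩
          · exact ⟨b, h, Ne.symm nab, hab⟩
        obtain ⟨z, zx, za, haz⟩ := hz
        have zy : z ≠ y := fun h => haz (h ▸ hay)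
        exact hpath z a x y za zx zy (Ne.symm xa) (Ne.symm ya) hxy (nadj _ _ haz) hax nxy
      · exact ya (hdeg x a y xa (nadj _ _ hax) hxy nxy).symm
    let R : V → V → Prop := fun x y => x ≠ y ∧ ¬ G.Adj x y ∧ x ≠ a ∧ y ≠ a
    have hRs : ∀ x y, R x y → R y x := fun x y h =>
      ⟨Ne.symm h.1, nadj _ _ h.2.1, h.2.2.2, h.2.2.1⟩
    have hRadj : ∀ x y, R x y → G.Adj a x ∧ G.Adj a y := fun x y h =>
      ⟨hclaim x y h.1 h.2.1 h.2.2.1 h.2.2.2, hclaim y x (Ne.symm h.1) (nadj _ _ h.2.1)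
        h.2.2.2 h.2.2.1⟩
    have hRb : ∀ x y, R x y → x ≠ b ∧ y ≠ b := fun x y h =>
      ⟨fun h' => hab (h' ▸ (hRadj x y h).1), fun h' => hab (h' ▸ (hRadj x y h).2)⟩
    have hRm : ∀ x y z w, R x y → R z w → x = z ∨ x = w ∨ y = z ∨ y = w := by
      intro x y z w h1 h2
      exact hmeet a b x y z w nab hab h1.2.2.1 (hRb _ _ h1).1 h1.2.2.2 (hRb _ _ h1).2
        h2.2.2.1 (hRb _ _ h2).1 h2.2.2.2 (hRb _ _ h2).2 h1.1 h1.2.1 h2.1 h2.2.1
    rcases star_or_tri R hRs hRm with h0 | ⟨d, w, hdw, h1⟩ | ⟨x, y, z, hxy, hyz, hxz⟩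
    · -- all non-edges contain `a`
      refine hno (minor_delete hcard a ?_)
      intro x y hxy xa ya
      by_contra nxy
      exact h0 x y ⟨hxy, nxy, xa, ya⟩
    · refine hno (minor_contract hcard a d (hRadj d w hdw).1 ?_ ?_)
      · intro x y hxy xa xd ya yd
        by_contra nxy
        rcases h1 x y ⟨hxy, nxy, xa, ya⟩ with h | h
        · exact xd h
        · exact yd h
      · intro z za zd
        by_contra hcon
        push Not at hcon
        have h2 : R z d := ⟨zd, hcon.2, za, hdw.2.2.1⟩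
        exact hcon.1 (hRadj z d h2).1.symm
    · exact hyz.2.1 (htri x y z hxy.1 hxz.1 hyz.1 hxy.2.1 hxz.2.1)

end NApexGraphs.Dom.Helper14
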